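import Mathlib

namespace Pool.Agent.R962.SO

theorem alg {a b T R A B p0 p1 p2 p3 k0 k1 k2 k3 : ℝ} (hb : b ≠ 0) (hab : a + b ≠ 0)
    (hT : T ≠ 0) (hR : R ≠ 0) (hF : 0 < a * T ^ 2 + b * R ^ 2)
    (hI : ∀ u0 u1 u2 u3 : ℝ, u0 ^ 2 = u1 ^ 2 + u2 ^ 2 + u3 ^ 2 →
      (a + b) * u0 ^ 2 / (a * T ^ 2 + b * R ^ 2)
        - 3 * (a * T * u0 + b * R * u1) ^ 2 / (a * T ^ 2 + b * R ^ 2) ^ 2
      = A * (p0 * u0 + p1 * u1 + p2 * u2 + p3 * u3) ^ 2
        + B * (k0 * u0 + k1 * u1 + k2 * u2 + k3 * u3) ^ 2)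
    (hk : k0 ^ 2 = k1 ^ 2 + k2 ^ 2 + k3 ^ 2) :
    k0 ≠ 0 ∧ k1 ^ 2 = k0 ^ 2 ∧ ∀ e : ℝ, e ^ 2 = 1 → k1 = e * k0 →
      3 * b * (a * T - e * b * R) * R * p0
        + ((a + b) * (a * T ^ 2 + b * R ^ 2) - 3 * a * (a * T - e * b * R) * T) * p1 = 0 := by
  obtain ⟨F, hFdef⟩ : ∃ F, F = a * T ^ 2 + b * R ^ 2 := ⟨_, rfl⟩
  rw [← hFdef] at hI hF ⊢
  obtain ⟨al, hal⟩ : ∃ al, al = (a + b) / F := ⟨_, rfl⟩
  obtain ⟨be, hbe⟩ : ∃ be, be = 3 / F ^ 2 := ⟨_, rfl⟩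
  have hbe0 : 0 < be := by rw [hbe]; positivity
  have hal0 : al ≠ 0 := by rw [hal]; exact div_ne_zero hab hF.ne'
  have hI' : ∀ u0 u1 u2 u3 : ℝ, u0 ^ 2 = u1 ^ 2 + u2 ^ 2 + u3 ^ 2 →
      al * u0 ^ 2 - be * (a * T * u0 + b * R * u1) ^ 2
      = A * (p0 * u0 + p1 * u1 + p2 * u2 + p3 * u3) ^ 2
        + B * (k0 * u0 + k1 * u1 + k2 * u2 + k3 * u3) ^ 2 := by
    intro u0 u1 u2 u3 hu
    rw [← hI u0 u1 u2 u3 hu, hal, hbe]
    ring
  obtain ⟨w0, hw0⟩ : ∃ w0, w0 = a * T := ⟨_, rfl⟩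
  obtain ⟨w1, hw1⟩ : ∃ w1, w1 = b * R := ⟨_, rfl⟩
  have hw1' : w1 ≠ 0 := by rw [hw1]; exact mul_ne_zero hb hR
  rw [← hw0, ← hw1] at hI'
  have a1 := hI' 1 1 0 0 (by norm_num)
  have a2 := hI' 1 (-1) 0 0 (by norm_num)
  have a3 := hI' 1 0 1 0 (by norm_num)
  have a4 := hI' 1 0 (-1) 0 (by norm_num)
  have a5 := hI' 1 0 0 1 (by norm_num)
  have a6 := hI' 1 0 0 (-1) (by norm_num)
  have a7 := hI' 5 3 4 0 (by norm_num)
  have a8 := hI' 5 3 0 4 (by norm_num)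
  have a9 := hI' 5 0 3 4 (by norm_num)
  obtain ⟨c, hc⟩ : ∃ c, c = al - be * w0 ^ 2 - A * p0 ^ 2 - B * k0 ^ 2 := ⟨_, rfl⟩
  have E01 : A * p0 * p1 + B * k0 * k1 = -be * w0 * w1 := by linarith
  have E11 : A * p1 ^ 2 + B * k1 ^ 2 = -be * w1 ^ 2 + c := by linarith
  have E02 : A * p0 * p2 + B * k0 * k2 = 0 := by linarith
  have E22 : A * p2 ^ 2 + B * k2 ^ 2 = c := by linarith
  have E03 : A * p0 * p3 + B * k0 * k3 = 0 := by linarith
  have E33 : A * p3 ^ 2 + B * k3 ^ 2 = c := by linarith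
  have E12 : A * p1 * p2 + B * k1 * k2 = 0 := by linarith
  have E13 : A * p1 * p3 + B * k1 * k3 = 0 := by linarith
  have E23 : A * p2 * p3 + B * k2 * k3 = 0 := by linarith
  have E00 : A * p0 ^ 2 + B * k0 ^ 2 = al - be * w0 ^ 2 - c := by linarith
  have hc0 : c = 0 := by
    by_contra hne
    have m0 : (A * p2 ^ 2 + B * k2 ^ 2) * (A * p3 ^ 2 + B * k3 ^ 2) * (A * p0 ^ 2 + B * k0 ^ 2)
        = 0 := by
      linear_combination (-2 * (A * p0 * p3 + B * k0 * k3) * (A * p0 * p2 + B * k0 * k2)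
        + (A * p0 ^ 2 + B * k0 ^ 2) * (A * p2 * p3 + B * k2 * k3)) * E23
        + (A * p2 ^ 2 + B * k2 ^ 2) * (A * p0 * p3 + B * k0 * k3) * E03
        + (A * p3 ^ 2 + B * k3 ^ 2) * (A * p0 * p2 + B * k0 * k2) * E02
    have m1 : (A * p2 ^ 2 + B * k2 ^ 2) * (A * p3 ^ 2 + B * k3 ^ 2) * (A * p1 ^ 2 + B * k1 ^ 2)
        = 0 := by
      linear_combination (-2 * (A * p1 * p3 + B * k1 * k3) * (A * p1 * p2 + B * k1 * k2)
        + (A * p1 ^ 2 + B * k1 ^ 2) * (A * p2 * p3 + B * k2 * k3)) * E23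
        + (A * p2 ^ 2 + B * k2 ^ 2) * (A * p1 * p3 + B * k1 * k3) * E13
        + (A * p3 ^ 2 + B * k3 ^ 2) * (A * p1 * p2 + B * k1 * k2) * E12
    have m01 : (A * p2 ^ 2 + B * k2 ^ 2) * (A * p3 ^ 2 + B * k3 ^ 2)
        * (A * p0 * p1 + B * k0 * k1) = 0 := by
      have id : (A * p2 ^ 2 + B * k2 ^ 2) * (A * p3 ^ 2 + B * k3 ^ 2)
        * (A * p0 * p1 + B * k0 * k1)
        = (A * p2 ^ 2 + B * k2 ^ 2) * (A * p1 * p3 + B * k1 * k3) * (A * p0 * p3 + B * k0 * k3)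
          + (A * p2 * p3 + B * k2 * k3) * ((A * p2 * p3 + B * k2 * k3) * (A * p0 * p1 + B * k0 * k1)
            - (A * p1 * p3 + B * k1 * k3) * (A * p0 * p2 + B * k0 * k2))
          - (A * p1 * p2 + B * k1 * k2) * ((A * p2 * p3 + B * k2 * k3) * (A * p0 * p3 + B * k0 * k3)
            - (A * p3 ^ 2 + B * k3 ^ 2) * (A * p0 * p2 + B * k0 * k2)) := by ring
      rw [id, E13, E23, E12]; ring
    rw [E22, E33, E00] at m0
    rw [E22, E33, E11] at m1
    rw [E22, E33, E01] at m01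
    have n0 : al - be * w0 ^ 2 - c = 0 := by
      rcases mul_eq_zero.mp m0 with h | h
      · exact absurd (mul_self_eq_zero.mp h) hne
      · exact h
    have n1 : -be * w1 ^ 2 + c = 0 := by
      rcases mul_eq_zero.mp m1 with h | h
      · exact absurd (mul_self_eq_zero.mp h) hne
      · exact h
    have n01 : -be * w0 * w1 = 0 := by
      rcases mul_eq_zero.mp m01 with h | h
      · exact absurd (mul_self_eq_zero.mp h) hne
      · exact h
    have hw00 : w0 = 0 := by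
      rcases mul_eq_zero.mp n01 with h | h
      · rcases mul_eq_zero.mp h with h | h
        · linarith
        · exact h
      · exact absurd h hw1'
    have ha : a = 0 := by
      rcases mul_eq_zero.mp (hw0 ▸ hw00 : a * T = 0) with h | h
      · exact h
      · exact absurd h hT
    subst ha
    have hF2 : F = b * R ^ 2 := by rw [hFdef]; ring
    have n2 : al = be * w1 ^ 2 := by rw [hw00] at n0; linarith
    rw [hal, hbe, hw1, hF2] at n2
    field_simp at n2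
    exact hb (by linarith)
  subst hc0
  have hdet : A * B * (p0 * k1 - p1 * k0) ^ 2 = -al * be * w1 ^ 2 := by
    linear_combination (A * p1 ^ 2 + B * k1 ^ 2) * E00 + (al - be * w0 ^ 2 ) * E11
      - (A * p0 * p1 + B * k0 * k1 - be * w0 * w1) * E01
  have hne : A * B * (p0 * k1 - p1 * k0) ^ 2 ≠ 0 := by
    rw [hdet]
    simp [hal0, hbe0.ne', hw1']
  have hA : A ≠ 0 := by intro h; apply hne; rw [h]; ring
  have hB : B ≠ 0 := by intro h; apply hne; rw [h]; ring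
  have hD : p0 * k1 - p1 * k0 ≠ 0 := by intro h; apply hne; rw [h]; ring
  have hk2 : k2 = 0 := by
    have : B * (p0 * k1 - p1 * k0) * k2 = 0 := by linear_combination p0 * E12 - p1 * E02
    rcases mul_eq_zero.mp this with h | h
    · exact absurd h (mul_ne_zero hB hD)
    · exact h
  have hk3 : k3 = 0 := by
    have : B * (p0 * k1 - p1 * k0) * k3 = 0 := by linear_combination p0 * E13 - p1 * E03
    rcases mul_eq_zero.mp this with h | h
    · exact absurd h (mul_ne_zero hB hD)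
    · exact h
  rw [hk2, hk3] at hk
  have hk01 : k1 ^ 2 = k0 ^ 2 := by linarith
  have hk0 : k0 ≠ 0 := by
    intro h
    rw [h] at hk01
    have : k1 = 0 := by simpa using hk01
    apply hD
    rw [h, this]; ring
  refine ⟨hk0, hk01, ?_⟩
  intro e he hke
  have f0 : A * (p0 - e * p1) * p0 = al - be * (w0 - e * w1) * w0 := by
    rw [hke] at E01
    have : B * k0 ^ 2 * (1 - e ^ 2) = 0 := by rw [he]; ring
    linear_combination E00 - e * E01 - this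
  have f1 : A * (p0 - e * p1) * p1 = - be * (w0 - e * w1) * w1 := by
    rw [hke] at E01 E11
    linear_combination E01 - e * E11 + B * k0 ^ 2 * e * he
  have f2 : (al - be * (w0 - e * w1) * w0) * p1 = - be * (w0 - e * w1) * w1 * p0 := by
    rw [← f0, ← f1]; ring
  rw [hal, hbe, hw0, hw1] at f2
  have hF0 := hF.ne'
  field_simp at f2
  linear_combination f2

end Pool.Agent.R962.SO
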