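import Mathlib

namespace Pool.Agent.R962.SO

open scoped Topology ContDiff
open Filter

/-- The Minkowski form on `ℝ⁴`. -/
def eta (u w : Fin 4 → ℝ) : ℝ := u 0 * w 0 - u 1 * w 1 - u 2 * w 2 - u 3 * w 3

abbrev E4 := Fin 4 → ℝ

theorem eta_comm (u w : E4) : eta u w = eta w u := by unfold eta; ring

theorem eta_nondeg {u : E4} (h : ∀ w, eta u w = 0) : u = 0 := by
  have h0 := h (Pi.single 0 1)
  have h1 := h (Pi.single 1 1)
  have h2 := h (Pi.single 2 1)
  have h3 := h (Pi.single 3 1)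
  simp [eta] at h0 h1 h2 h3
  funext i
  fin_cases i <;> simp [h0, h1, h2, h3]

/-- A linear map which is conformal for `eta` is bijective. -/
theorem conf_inj {G : E4 →L[ℝ] E4} {L : ℝ}
    (h : ∀ u w, eta (G u) (G w) = Real.exp L * eta u w) : Function.Injective G := by
  intro u v huv
  have hz : G (u - v) = 0 := by rw [map_sub, huv, sub_self]
  have : u - v = 0 := by
    apply eta_nondeg
    intro w
    have h1 := h (u - v) w
    rw [hz] at h1
    have h2 : eta 0 (G w) = 0 := by simp [eta]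
    rw [h2] at h1
    have := Real.exp_pos L
    rcases mul_eq_zero.mp h1.symm with h3 | h3
    · exact absurd h3 this.ne'
    · exact h3
  exact sub_eq_zero.mp this

theorem conf_surj {G : E4 →L[ℝ] E4} {L : ℝ}
    (h : ∀ u w, eta (G u) (G w) = Real.exp L * eta u w) : Function.Surjective G :=
  (LinearMap.injective_iff_surjective (f := G.toLinearMap)).mp (conf_inj h)

theorem conf_ext {G : E4 →L[ℝ] E4} {L : ℝ}
    (h : ∀ u w, eta (G u) (G w) = Real.exp L * eta u w) {y z : E4}
    (hyz : ∀ w, eta y (G w) = eta z (G w)) : y = z := by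
  have : y - z = 0 := by
    apply eta_nondeg
    intro w
    obtain ⟨w', rfl⟩ := conf_surj h w
    have := hyz w'
    unfold eta at this ⊢
    simp only [Pi.sub_apply]
    linarith
  exact sub_eq_zero.mp this

/-- directional derivative along a line -/
theorem hasDerivAt_line {F : Type*} [NormedAddCommGroup F] [NormedSpace ℝ F] {f : E4 → F}
    {x u : E4} {s : ℝ} (hf : DifferentiableAt ℝ f (x + s • u)) :
    HasDerivAt (fun s : ℝ => f (x + s • u)) (fderiv ℝ f (x + s • u) u) s := by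
  have h1 : HasDerivAt (fun s : ℝ => x + s • u) u s := by
    simpa using ((hasDerivAt_id s).smul_const u).const_add x
  exact hf.hasFDerivAt.comp_hasDerivAt s h1

theorem hasDerivAt_line0 {F : Type*} [NormedAddCommGroup F] [NormedSpace ℝ F] {f : E4 → F}
    {x u : E4} (hf : DifferentiableAt ℝ f x) :
    HasDerivAt (fun s : ℝ => f (x + s • u)) (fderiv ℝ f x u) 0 := by
  have := hasDerivAt_line (f := f) (x := x) (u := u) (s := 0) (by simpa using hf)
  simpa using this

theorem line_mem {W : Set E4} (hW : IsOpen W) {x : E4} (hx : x ∈ W) (u : E4) :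
    ∀ᶠ s : ℝ in 𝓝 0, x + s • u ∈ W := by
  have hc : Continuous (fun s : ℝ => x + s • u) := by fun_prop
  have : (fun s : ℝ => x + s • u) ⁻¹' W ∈ 𝓝 (0:ℝ) := by
    apply (hW.preimage hc).mem_nhds
    simpa using hx
  exact this

section
variable {X : E4 → E4} {l : E4 → ℝ} {W : Set E4}

/-- Differentiated conformality. -/
theorem koszul0 (hW : IsOpen W) (hX : ∀ x ∈ W, ContDiffAt ℝ 3 X x)
    (hl : ∀ x ∈ W, ContDiffAt ℝ 2 l x)
    (hc : ∀ x ∈ W, ∀ u w, eta (fderiv ℝ X x u) (fderiv ℝ X x w) = Real.exp (2 * l x) * eta u w)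
    {x : E4} (hx : x ∈ W) (z u w : E4) :
    eta (fderiv ℝ (fderiv ℝ X) x z u) (fderiv ℝ X x w)
      + eta (fderiv ℝ (fderiv ℝ X) x z w) (fderiv ℝ X x u) =
      2 * fderiv ℝ l x z * Real.exp (2 * l x) * eta u w := by
  have hG : DifferentiableAt ℝ (fderiv ℝ X) x :=
    ((hX x hx).fderiv_right (m := 2) (by norm_num)).differentiableAt (by norm_num)
  have hGl := hasDerivAt_line0 (f := fderiv ℝ X) (u := z) hG
  have hu : ∀ v : E4, HasDerivAt (fun s : ℝ => fderiv ℝ X (x + s • z) v)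
      (fderiv ℝ (fderiv ℝ X) x z v) 0 := fun v => by
    simpa using hGl.clm_apply (hasDerivAt_const (0:ℝ) v)
  have hui : ∀ (v : E4) (i : Fin 4), HasDerivAt (fun s : ℝ => fderiv ℝ X (x + s • z) v i)
      (fderiv ℝ (fderiv ℝ X) x z v i) 0 := fun v i => (hasDerivAt_pi.mp (hu v)) i
  have hL := hasDerivAt_line0 (f := l) (u := z) ((hl x hx).differentiableAt (by norm_num))
  have h1 : HasDerivAt (fun s : ℝ => eta (fderiv ℝ X (x + s • z) u) (fderiv ℝ X (x + s • z) w))
      (eta (fderiv ℝ (fderiv ℝ X) x z u) (fderiv ℝ X x w)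
      + eta (fderiv ℝ (fderiv ℝ X) x z w) (fderiv ℝ X x u)) 0 := by
    unfold eta
    refine HasDerivAt.congr_deriv ((((hui u 0).mul (hui w 0)).sub ((hui u 1).mul (hui w 1))).sub
      ((hui u 2).mul (hui w 2)) |>.sub ((hui u 3).mul (hui w 3))) ?_
    simp only [zero_smul, add_zero]
    ring
  have h2 : HasDerivAt (fun s : ℝ => Real.exp (2 * l (x + s • z)) * eta u w)
      (2 * fderiv ℝ l x z * Real.exp (2 * l x) * eta u w) 0 := by
    refine HasDerivAt.congr_deriv (((hL.const_mul 2).exp).mul_const (eta u w)) ?_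
    simp only [zero_smul, add_zero]
    ring
  have h3 : (fun s : ℝ => eta (fderiv ℝ X (x + s • z) u) (fderiv ℝ X (x + s • z) w))
      =ᶠ[𝓝 0] (fun s : ℝ => Real.exp (2 * l (x + s • z)) * eta u w) := by
    filter_upwards [line_mem hW hx z] with s hs
    exact hc _ hs u w
  exact h1.unique (h2.congr_of_eventuallyEq h3)

theorem snd_symm {x : E4} (hX : ContDiffAt ℝ 3 X x) (u w : E4) :
    fderiv ℝ (fderiv ℝ X) x u w = fderiv ℝ (fderiv ℝ X) x w u := by
  have : IsSymmSndFDerivAt ℝ X x := hX.isSymmSndFDerivAt (by simp; norm_num)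
  exact this u w

theorem koszul (hW : IsOpen W) (hX : ∀ x ∈ W, ContDiffAt ℝ 3 X x)
    (hl : ∀ x ∈ W, ContDiffAt ℝ 2 l x)
    (hc : ∀ x ∈ W, ∀ u w, eta (fderiv ℝ X x u) (fderiv ℝ X x w) = Real.exp (2 * l x) * eta u w)
    {x : E4} (hx : x ∈ W) {u w : E4} (huw : eta u w = 0) :
    fderiv ℝ (fderiv ℝ X) x u w =
      fderiv ℝ l x u • fderiv ℝ X x w + fderiv ℝ l x w • fderiv ℝ X x u := by
  apply conf_ext (hc x hx)
  intro z
  have h1 := koszul0 hW hX hl hc hx u w z
  have h2 := koszul0 hW hX hl hc hx w u z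
  have h3 := koszul0 hW hX hl hc hx z u w
  rw [snd_symm (hX x hx) w u, snd_symm (hX x hx) w z] at h2
  rw [snd_symm (hX x hx) u z] at h1
  rw [huw] at h3
  have h4 : eta (fderiv ℝ l x u • fderiv ℝ X x w + fderiv ℝ l x w • fderiv ℝ X x u)
      (fderiv ℝ X x z) = fderiv ℝ l x u * eta (fderiv ℝ X x w) (fderiv ℝ X x z)
        + fderiv ℝ l x w * eta (fderiv ℝ X x u) (fderiv ℝ X x z) := by
    unfold eta
    simp only [Pi.add_apply, Pi.smul_apply, smul_eq_mul]
    ring
  rw [h4, hc x hx, hc x hx]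
  linarith

/-- Along null directions `l'' = l'^2`. -/
theorem conf_null (hW : IsOpen W) (hX : ∀ x ∈ W, ContDiffAt ℝ 3 X x)
    (hl : ∀ x ∈ W, ContDiffAt ℝ 2 l x)
    (hc : ∀ x ∈ W, ∀ u w, eta (fderiv ℝ X x u) (fderiv ℝ X x w) = Real.exp (2 * l x) * eta u w)
    {x : E4} (hx : x ∈ W) {u w : E4} (huu : eta u u = 0) (huw : eta u w = 0)
    (hind : ∀ a b : ℝ, a • u + b • w = 0 → b = 0) :
    fderiv ℝ (fun y => fderiv ℝ l y u) x u = (fderiv ℝ l x u) ^ 2 := by
  -- the vector functions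
  have hGd : ∀ y ∈ W, DifferentiableAt ℝ (fderiv ℝ X) y := fun y hy =>
    ((hX y hy).fderiv_right (m := 2) (by norm_num)).differentiableAt (by norm_num)
  have hgd : ∀ v : E4, ∀ y ∈ W, HasFDerivAt (fun y => fderiv ℝ X y v)
      ((fderiv ℝ (fderiv ℝ X) y).flip v) y := by
    intro v y hy
    have := (hGd y hy).hasFDerivAt.clm_apply (hasFDerivAt_const v y)
    simpa using this
  have hgC : ContDiffAt ℝ 2 (fun y => fderiv ℝ X y u) x :=
    ((hX x hx).fderiv_right (m := 2) (by norm_num)).clm_apply contDiffAt_const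
  have hld : ∀ v : E4, DifferentiableAt ℝ (fun y => fderiv ℝ l y v) x := by
    intro v
    exact (((hl x hx).fderiv_right (m := 1) (by norm_num)).clm_apply
      contDiffAt_const).differentiableAt (by norm_num)
  have hgu : ∀ y ∈ W, fderiv ℝ (fun y => fderiv ℝ X y u) y u
      = (2 * fderiv ℝ l y u) • fderiv ℝ X y u := by
    intro y hy
    rw [(hgd u y hy).fderiv, ContinuousLinearMap.flip_apply, koszul hW hX hl hc hy huu, ← add_smul,
      two_mul]
  have hgw : ∀ y ∈ W, fderiv ℝ (fun y => fderiv ℝ X y u) y w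
      = fderiv ℝ l y w • fderiv ℝ X y u + fderiv ℝ l y u • fderiv ℝ X y w := by
    intro y hy
    rw [(hgd u y hy).fderiv, ContinuousLinearMap.flip_apply, snd_symm (hX y hy),
      koszul hW hX hl hc hy huw, add_comm]
  have hwu : fderiv ℝ (fun y => fderiv ℝ X y w) x u
      = fderiv ℝ l x w • fderiv ℝ X x u + fderiv ℝ l x u • fderiv ℝ X x w := by
    rw [(hgd w x hx).fderiv, ContinuousLinearMap.flip_apply,
      koszul hW hX hl hc hx huw, add_comm]
  have hsym : fderiv ℝ (fun y => fderiv ℝ (fun y => fderiv ℝ X y u) y u) x w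
      = fderiv ℝ (fun y => fderiv ℝ (fun y => fderiv ℝ X y u) y w) x u := by
    have hs : IsSymmSndFDerivAt ℝ (fun y => fderiv ℝ X y u) x :=
      hgC.isSymmSndFDerivAt (by simp)
    have hd : DifferentiableAt ℝ (fderiv ℝ (fun y => fderiv ℝ X y u)) x :=
      (hgC.fderiv_right (m := 1) (by norm_num)).differentiableAt (by norm_num)
    have e : ∀ v : E4, HasFDerivAt (fun y => fderiv ℝ (fun y => fderiv ℝ X y u) y v)
      ((fderiv ℝ (fderiv ℝ (fun y => fderiv ℝ X y u)) x).flip v) x := by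
      intro v
      have := hd.hasFDerivAt.clm_apply (hasFDerivAt_const v x)
      simpa using this
    rw [(e u).fderiv, (e w).fderiv, ContinuousLinearMap.flip_apply,
      ContinuousLinearMap.flip_apply]
    exact hs w u
  have hWx : W ∈ 𝓝 x := hW.mem_nhds hx
  have e1 : fderiv ℝ (fun y => fderiv ℝ (fun y => fderiv ℝ X y u) y u) x w
      = (2 * fderiv ℝ (fun y => fderiv ℝ l y u) x w) • fderiv ℝ X x u
        + (2 * fderiv ℝ l x u) • (fderiv ℝ l x w • fderiv ℝ X x u
          + fderiv ℝ l x u • fderiv ℝ X x w) := by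
    have h1 : (fun y => fderiv ℝ (fun y => fderiv ℝ X y u) y u) =ᶠ[𝓝 x]
        (fun y => (2 * fderiv ℝ l y u) • fderiv ℝ X y u) := by
      filter_upwards [hWx] with y hy using hgu y hy
    rw [h1.fderiv_eq]
    have h2 := ((hld u).hasFDerivAt.const_mul 2).smul (hgd u x hx).differentiableAt.hasFDerivAt
    have h3 : fderiv ℝ (fun y => (2 * fderiv ℝ l y u) • fderiv ℝ X y u) x w = _ :=
      congrArg (fun T => T w) h2.fderiv
    rw [h3]
    simp only [add_apply, smul_apply,
      ContinuousLinearMap.smulRight_apply, smul_eq_mul]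
    rw [hgw x hx]
    module
  have e2 : fderiv ℝ (fun y => fderiv ℝ (fun y => fderiv ℝ X y u) y w) x u
      = (fderiv ℝ (fun y => fderiv ℝ l y w) x u) • fderiv ℝ X x u
        + (fderiv ℝ l x w) • ((2 * fderiv ℝ l x u) • fderiv ℝ X x u)
        + (fderiv ℝ (fun y => fderiv ℝ l y u) x u) • fderiv ℝ X x w
        + (fderiv ℝ l x u) • (fderiv ℝ l x w • fderiv ℝ X x u
          + fderiv ℝ l x u • fderiv ℝ X x w) := by
    have h1 : (fun y => fderiv ℝ (fun y => fderiv ℝ X y u) y w) =ᶠ[𝓝 x]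
        (fun y => fderiv ℝ l y w • fderiv ℝ X y u + fderiv ℝ l y u • fderiv ℝ X y w) := by
      filter_upwards [hWx] with y hy using hgw y hy
    rw [h1.fderiv_eq]
    have h2 := ((hld w).hasFDerivAt.smul (hgd u x hx).differentiableAt.hasFDerivAt).add
      ((hld u).hasFDerivAt.smul (hgd w x hx).differentiableAt.hasFDerivAt)
    have h3 : fderiv ℝ (fun y => fderiv ℝ l y w • fderiv ℝ X y u
        + fderiv ℝ l y u • fderiv ℝ X y w) x u = _ :=
      congrArg (fun T => T u) h2.fderiv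
    rw [h3]
    simp only [add_apply, smul_apply,
      ContinuousLinearMap.smulRight_apply, smul_eq_mul]
    rw [hgu x hx, hwu]
    module
  rw [e1, e2] at hsym
  have h4 : fderiv ℝ X x (((2 * fderiv ℝ (fun y => fderiv ℝ l y u) x w)
      - fderiv ℝ (fun y => fderiv ℝ l y w) x u - fderiv ℝ l x w * fderiv ℝ l x u) • u
      + ((fderiv ℝ l x u) ^ 2 - fderiv ℝ (fun y => fderiv ℝ l y u) x u) • w) = 0 := by
    rw [map_add, map_smul, map_smul]
    rw [← sub_eq_zero] at hsym
    rw [← hsym]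
    module
  have h5 := hind _ _ ((conf_inj (hc x hx)) (h4.trans (map_zero _).symm))
  linarith

/-- the transversal null-orthogonal direction exists -/
theorem exists_transversal {u : E4} (huu : eta u u = 0) (hu : u ≠ 0) :
    ∃ w : E4, eta u w = 0 ∧ ∀ a b : ℝ, a • u + b • w = 0 → b = 0 := by
  have hu0 : u 0 ≠ 0 := by
    intro h0
    apply hu
    simp only [eta, h0] at huu
    have h1 : u 1 = 0 := by nlinarith [sq_nonneg (u 1), sq_nonneg (u 2), sq_nonneg (u 3)]
    have h2 : u 2 = 0 := by nlinarith [sq_nonneg (u 1), sq_nonneg (u 2), sq_nonneg (u 3)]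
    have h3 : u 3 = 0 := by nlinarith [sq_nonneg (u 1), sq_nonneg (u 2), sq_nonneg (u 3)]
    funext i
    fin_cases i <;> simp [h0, h1, h2, h3]
  by_cases h12 : u 1 = 0 ∧ u 2 = 0
  · refine ⟨![0, 1, 0, 0], by simp [eta, h12.1], ?_⟩
    intro a b hab
    have h0 := congrFun hab 0
    have h1 := congrFun hab 1
    simp [hu0] at h0 h1
    rw [h0, zero_mul, zero_add] at h1
    exact h1
  · refine ⟨![0, -u 2, u 1, 0], by simp [eta]; ring, ?_⟩
    intro a b hab
    have h0 := congrFun hab 0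
    have h1 := congrFun hab 1
    have h2 := congrFun hab 2
    simp [hu0] at h0 h1 h2
    rw [h0, zero_mul, zero_add] at h2
    rw [h0, zero_mul, zero_add, neg_eq_zero] at h1
    by_contra hb
    apply h12
    constructor
    · rcases mul_eq_zero.mp h2 with h | h
      · exact absurd h hb
      · exact h
    · rcases mul_eq_zero.mp h1 with h | h
      · exact absurd h hb
      · exact h

theorem conf_null' (hW : IsOpen W) (hX : ∀ x ∈ W, ContDiffAt ℝ 3 X x)
    (hl : ∀ x ∈ W, ContDiffAt ℝ 2 l x)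
    (hc : ∀ x ∈ W, ∀ u w, eta (fderiv ℝ X x u) (fderiv ℝ X x w) = Real.exp (2 * l x) * eta u w)
    {x : E4} (hx : x ∈ W) {u : E4} (huu : eta u u = 0) :
    fderiv ℝ (fun y => fderiv ℝ l y u) x u = (fderiv ℝ l x u) ^ 2 := by
  by_cases hu : u = 0
  · subst hu; simp
  · obtain ⟨w, h1, h2⟩ := exists_transversal huu hu
    exact conf_null hW hX hl hc hx huu h1 h2

end

end Pool.Agent.R962.SO
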