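import Mathlib

namespace Pool.Agent.R962.SO

open scoped Topology
open Filter

theorem cubic_zero {x0 a b c d : ℝ} (h : ∀ᶠ x in 𝓝 x0, a * x ^ 3 + b * x ^ 2 + c * x + d = 0) :
    a = 0 ∧ b = 0 ∧ c = 0 ∧ d = 0 := by
  have h1 : (⟨a, b, c, d⟩ : Cubic ℝ).toPoly = 0 := by
    apply Polynomial.eq_zero_of_infinite_isRoot
    have hs : {x : ℝ | a * x ^ 3 + b * x ^ 2 + c * x + d = 0} ∈ 𝓝 x0 := h
    have hinf : {x : ℝ | a * x ^ 3 + b * x ^ 2 + c * x + d = 0}.Infinite :=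
      infinite_of_mem_nhds x0 hs
    refine hinf.mono ?_
    intro x hx
    simp only [Set.mem_ofPred_eq] at hx ⊢
    simp [Polynomial.IsRoot, Cubic.toPoly]
    exact hx
  have h2 : (⟨a, b, c, d⟩ : Cubic ℝ).toPoly = (⟨0, 0, 0, 0⟩ : Cubic ℝ).toPoly := by
    rw [h1]; simp [Cubic.toPoly]
  exact ⟨Cubic.a_of_eq h2, Cubic.b_of_eq h2, Cubic.c_of_eq h2, Cubic.d_of_eq h2⟩

theorem endgame {a b e T0 R0 al be de ga : ℝ} (hb : b ≠ 0) (hab : a + b ≠ 0) (he : e ^ 2 = 1)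
    (hT0 : T0 ≠ 0)
    (h : ∀ᶠ T in 𝓝 T0, ∀ᶠ R in 𝓝 R0,
      b * (a + b) * R * (al + be * T + de * R + ga * (T ^ 2 - R ^ 2))
      + 3 * b * (a * T - e * b * R) * R * (be + 2 * ga * T)
      + ((a + b) * (a * T ^ 2 + b * R ^ 2) - 3 * a * (a * T - e * b * R) * T)
        * (de - 2 * ga * R) = 0) :
    al = 0 ∧ be = 0 ∧ de = 0 ∧ ga = 0 := by
  have h1 : ∀ᶠ T in 𝓝 T0, -3 * b * (a + b) * ga = 0 ∧
      2 * b * (a + b) * de - 3 * e * b ^ 2 * (be + 2 * ga * T) - 6 * e * a * b * ga * T = 0 ∧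
      b * (a + b) * (al + be * T + ga * T ^ 2) + 3 * a * b * T * (be + 2 * ga * T)
        + 3 * e * a * b * T * de - 2 * ga * a * (b - 2 * a) * T ^ 2 = 0 ∧
      a * (b - 2 * a) * de * T ^ 2 = 0 := by
    filter_upwards [h] with T hT
    apply cubic_zero (x0 := R0)
    filter_upwards [hT] with R hR
    linear_combination hR
  have h2 := h1.self_of_nhds
  have hga : ga = 0 := by
    have := h2.1
    have h3 : -3 * b * (a + b) ≠ 0 := by simp [hb, hab]
    rcases mul_eq_zero.mp this with h | h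
    · exact absurd h h3
    · exact h
  subst hga
  have h3 : ∀ᶠ T in 𝓝 T0, 0 * T ^ 3 + 0 * T ^ 2
      + (b * (a + b) * be + 3 * a * b * be + 3 * e * a * b * de) * T + b * (a + b) * al = 0 := by
    filter_upwards [h1] with T hT
    linear_combination hT.2.2.1
  obtain ⟨-, -, h4, h5⟩ := cubic_zero h3
  have hal : al = 0 := by
    rcases mul_eq_zero.mp h5 with h | h
    · exact absurd h (mul_ne_zero hb hab)
    · exact h
  have h6 := h2.2.1
  have h7 := h2.2.2.2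
  have h8 : a * (b - 2 * a) * de = 0 := by
    rcases mul_eq_zero.mp h7 with h | h
    · exact h
    · exact absurd (pow_eq_zero_iff (two_ne_zero) |>.mp h) hT0
  have h9 : b * ((8 * a ^ 2 + 19 * a * b + 2 * b ^ 2) * de) = 0 := by
    linear_combination 3 * e * b * h4 + (4 * a + b) * h6 - 9 * a * b ^ 2 * de * he
  have hde : de = 0 := by
    by_contra hne
    have h10 : 8 * a ^ 2 + 19 * a * b + 2 * b ^ 2 = 0 := by
      rcases mul_eq_zero.mp h9 with h | h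
      · exact absurd h hb
      · rcases mul_eq_zero.mp h with h | h
        · exact h
        · exact absurd h hne
    rcases mul_eq_zero.mp h8 with h | h
    · rcases mul_eq_zero.mp h with h | h
      · rw [h] at h10
        apply hb
        have : b ^ 2 = 0 := by linarith
        exact pow_eq_zero_iff (two_ne_zero) |>.mp this
      · have hb2 : b = 2 * a := by linarith
        rw [hb2] at h10
        apply hb
        have : a ^ 2 = 0 := by linarith
        rw [hb2, pow_eq_zero_iff (two_ne_zero) |>.mp this, mul_zero]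
    · exact absurd h hne
  have hbe : be = 0 := by
    rw [hde] at h6
    have h11 : -(3 * e * b ^ 2) * be = 0 := by linear_combination h6
    have he0 : e ≠ 0 := by rintro rfl; norm_num at he
    rcases mul_eq_zero.mp h11 with h | h
    · exfalso
      have : 3 * e * b ^ 2 ≠ 0 := by simp [he0, hb]
      exact this (by linarith)
    · exact h
  exact ⟨hal, hbe, hde, rfl⟩

theorem aff {r : ℝ} (hr : 0 < r) {f f' : ℝ → ℝ} (h1 : ∀ s ∈ Set.Ioo (-r) r, HasDerivAt f (f' s) s)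
    (h2 : ∀ s ∈ Set.Ioo (-r) r, HasDerivAt f' 0 s) :
    ∀ s ∈ Set.Ioo (-r) r, f s = f 0 + s * f' 0 := by
  have h0 : (0:ℝ) ∈ Set.Ioo (-r) r := ⟨by linarith, hr⟩
  have hc : ∀ s ∈ Set.Ioo (-r) r, f' s = f' 0 := by
    intro s hs
    exact IsOpen.is_const_of_deriv_eq_zero isOpen_Ioo isPreconnected_Ioo
      (fun s hs => (h2 s hs).differentiableAt.differentiableWithinAt)
      (fun s hs => (h2 s hs).deriv) hs h0
  intro s hs
  have hd : ∀ s ∈ Set.Ioo (-r) r, HasDerivAt (fun s => f s - s * f' 0) 0 s := by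
    intro s hs
    refine HasDerivAt.congr_deriv ((h1 s hs).sub ((hasDerivAt_id s).mul_const (f' 0))) ?_
    rw [hc s hs]; ring
  have := IsOpen.is_const_of_deriv_eq_zero isOpen_Ioo isPreconnected_Ioo
      (fun s hs => (hd s hs).differentiableAt.differentiableWithinAt)
      (fun s hs => (hd s hs).deriv) hs h0
  simp only [zero_mul, sub_zero] at this
  linarith

theorem biaff {r : ℝ} (hr : 0 < r) {F Fs Ft : ℝ → ℝ → ℝ}
    (h1 : ∀ s ∈ Set.Ioo (-r) r, ∀ t ∈ Set.Ioo (-r) r, HasDerivAt (fun s => F s t) (Fs s t) s)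
    (h2 : ∀ s ∈ Set.Ioo (-r) r, ∀ t ∈ Set.Ioo (-r) r, HasDerivAt (fun s => Fs s t) 0 s)
    (h3 : ∀ s ∈ Set.Ioo (-r) r, ∀ t ∈ Set.Ioo (-r) r, HasDerivAt (fun t => F s t) (Ft s t) t)
    (h4 : ∀ s ∈ Set.Ioo (-r) r, ∀ t ∈ Set.Ioo (-r) r, HasDerivAt (fun t => Ft s t) 0 t) :
    ∃ a0 a1 a2 a3 : ℝ, ∀ s ∈ Set.Ioo (-r) r, ∀ t ∈ Set.Ioo (-r) r,
      F s t = a0 + a1 * s + a2 * t + a3 * (s * t) := by
  have h0 : (0:ℝ) ∈ Set.Ioo (-r) r := ⟨by linarith, hr⟩
  have hh : (r/2:ℝ) ∈ Set.Ioo (-r) r := ⟨by linarith, by linarith⟩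
  have A : ∀ s ∈ Set.Ioo (-r) r, ∀ t ∈ Set.Ioo (-r) r, F s t = F 0 t + s * Fs 0 t :=
    fun s hs t ht => aff hr (fun s hs => h1 s hs t ht) (fun s hs => h2 s hs t ht) s hs
  have B : ∀ s ∈ Set.Ioo (-r) r, ∀ t ∈ Set.Ioo (-r) r, F s t = F s 0 + t * Ft s 0 :=
    fun s hs t ht => aff hr (fun t ht => h3 s hs t ht) (fun t ht => h4 s hs t ht) t ht
  refine ⟨F 0 0, Fs 0 0, Ft 0 0, (Ft (r/2) 0 - Ft 0 0) / (r/2), ?_⟩
  intro s hs t ht
  have e1 := A s hs t ht
  have e2 := B 0 h0 t ht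
  have e3 := A (r/2) hh t ht
  have e4 := B (r/2) hh t ht
  have e5 := A (r/2) hh 0 h0
  have e6 : r / 2 * Fs 0 t = r / 2 * Fs 0 0 + t * (Ft (r/2) 0 - Ft 0 0) := by linarith
  have e7 : Fs 0 t = Fs 0 0 + t * ((Ft (r/2) 0 - Ft 0 0) / (r/2)) := by
    field_simp
    field_simp at e6
    linarith
  rw [e1, e2, e7]
  ring

end Pool.Agent.R962.SO
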