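import Pool.Agent.R962.SO.Ident
import Pool.Agent.R962.SO.Alg
import Pool.Agent.R962.SO.Poly

namespace Pool.Agent.R962.SO

open scoped Topology
open Filter

/-- standard basis -/
def bs (i : Fin 4) : E4 := Pi.single i 1

/-- the point `(T, R, 0, 0)` -/
def pt (T R : ℝ) : E4 := ![T, R, 0, 0]

theorem bs_expand (u : E4) : u = u 0 • bs 0 + u 1 • bs 1 + u 2 • bs 2 + u 3 • bs 3 := by
  funext i
  fin_cases i <;> simp [bs]

theorem lin_expand (T : E4 →L[ℝ] ℝ) (u : E4) :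
    T u = T (bs 0) * u 0 + T (bs 1) * u 1 + T (bs 2) * u 2 + T (bs 3) * u 3 := by
  conv_lhs => rw [bs_expand u]
  simp only [map_add, map_smul, smul_eq_mul]
  ring

theorem kf_expand (X : E4 → E4) (R : E4 → ℝ) (x u : E4) :
    kf X R x u = kf X R x (bs 0) * u 0 + kf X R x (bs 1) * u 1 + kf X R x (bs 2) * u 2
      + kf X R x (bs 3) * u 3 := by
  have h := lin_expand ((ContinuousLinearMap.proj 0 : E4 →L[ℝ] ℝ).comp (fderiv ℝ X x)
    + fderiv ℝ R x) u
  simpa [kf] using h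

theorem pf_expand (X : E4 → E4) (R c P : E4 → ℝ) (x u : E4) :
    pf X R c P x u = pf X R c P x (bs 0) * u 0 + pf X R c P x (bs 1) * u 1
      + pf X R c P x (bs 2) * u 2 + pf X R c P x (bs 3) * u 3 := by
  have h1 := kf_expand X R x u
  have h2 := lin_expand (fderiv ℝ R x) u
  unfold pf
  rw [h1, h2]
  ring

variable {a b : ℝ} {W : Set E4} {X : E4 → E4} {R c P P1 h H K : E4 → ℝ}

theorem dRR (D : CoreData a b W X R c P P1 h H K) {x : E4} (hx : x ∈ W) (u : E4) :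
    R x * fderiv ℝ R x u = X x 1 * fderiv ℝ X x u 1 + X x 2 * fderiv ℝ X x u 2
      + X x 3 * fderiv ℝ X x u 3 := by
  have hR := hasDerivAt_line0 (u := u) ((D.R_smooth x hx).differentiableAt (by norm_num))
  have hX := hasDerivAt_line0 (u := u) ((D.X_smooth x hx).differentiableAt (by norm_num))
  have hXi : ∀ i : Fin 4, HasDerivAt (fun s : ℝ => X (x + s • u) i) (fderiv ℝ X x u i) 0 :=
    fun i => (hasDerivAt_pi.mp hX) i
  have h1 := hR.pow 2
  have h2 := (((hXi 1).pow 2).add ((hXi 2).pow 2)).add ((hXi 3).pow 2)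
  have h3 : (fun s : ℝ => R (x + s • u) ^ 2) =ᶠ[𝓝 0] (fun s : ℝ => X (x + s • u) 1 ^ 2
      + X (x + s • u) 2 ^ 2 + X (x + s • u) 3 ^ 2) := by
    filter_upwards [line_mem D.isOpen hx u] with s hs using D.RR _ hs
  have h4 := h1.unique (h2.congr_of_eventuallyEq h3)
  simp at h4
  linarith

theorem k_null (D : CoreData a b W X R c P P1 h H K) {x : E4} (hx : x ∈ W) :
    kf X R x (bs 0) ^ 2 = kf X R x (bs 1) ^ 2 + kf X R x (bs 2) ^ 2 + kf X R x (bs 3) ^ 2 := by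
  have hR := D.R_ne x hx
  obtain ⟨z, hz⟩ := conf_surj (D.conf x hx) (![1, -(X x 1 / R x), -(X x 2 / R x), -(X x 3 / R x)])
  have hk : ∀ w, kf X R x w = Real.exp (2 * lf a b h x) * eta z w := by
    intro w
    rw [← D.conf x hx, hz]
    unfold kf eta
    simp
    have := dRR D hx w
    field_simp
    linear_combination this
  have hzz : eta z z = 0 := by
    have h1 := D.conf x hx z z
    rw [hz] at h1
    have h2 : eta ![1, -(X x 1 / R x), -(X x 2 / R x), -(X x 3 / R x)]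
      ![1, -(X x 1 / R x), -(X x 2 / R x), -(X x 3 / R x)] = 0 := by
      unfold eta
      simp
      have := D.RR x hx
      field_simp
      linear_combination this
    rw [h2] at h1
    rcases mul_eq_zero.mp h1.symm with h3 | h3
    · exact absurd h3 (Real.exp_pos _).ne'
    · exact h3
  rw [hk, hk, hk, hk]
  have e0 : eta z (bs 0) = z 0 := by simp [eta, bs]
  have e1 : eta z (bs 1) = - z 1 := by simp [eta, bs]
  have e2 : eta z (bs 2) = - z 2 := by simp [eta, bs]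
  have e3 : eta z (bs 3) = - z 3 := by simp [eta, bs]
  rw [e0, e1, e2, e3]
  unfold eta at hzz
  linear_combination Real.exp (2 * lf a b h x) ^ 2 * hzz

theorem E1 (D : CoreData a b W X R c P P1 h H K) (hb : b ≠ 0) (hab : a + b ≠ 0)
    {T S : ℝ} (hT : T ≠ 0) (hS : S ≠ 0) (hx : pt T S ∈ W) :
    kf X R (pt T S) (bs 0) ≠ 0 ∧ kf X R (pt T S) (bs 1) ^ 2 = kf X R (pt T S) (bs 0) ^ 2 ∧
      ∀ e : ℝ, e ^ 2 = 1 → kf X R (pt T S) (bs 1) = e * kf X R (pt T S) (bs 0) →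
        b * (a + b) * S - 3 * b * (a * T - e * b * S) * S * fderiv ℝ (lf a b h) (pt T S) (bs 0)
        - ((a + b) * (a * T ^ 2 + b * S ^ 2) - 3 * a * (a * T - e * b * S) * T)
          * fderiv ℝ (lf a b h) (pt T S) (bs 1) = 0 := by
  obtain ⟨x, hxdef⟩ : ∃ x, x = pt T S := ⟨_, rfl⟩
  rw [← hxdef] at hx ⊢
  have x0 : x 0 = T := by rw [hxdef]; rfl
  have x1 : x 1 = S := by rw [hxdef]; rfl
  have x2 : x 2 = 0 := by rw [hxdef]; rfl
  have x3 : x 3 = 0 := by rw [hxdef]; rfl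
  have hPhi : Phi a b x = a * T ^ 2 + b * S ^ 2 := by unfold Phi; rw [x0, x1, x2, x3]; ring
  have hF : 0 < a * T ^ 2 + b * S ^ 2 := hPhi ▸ D.Phi_pos x hx
  have hI : ∀ u0 u1 u2 u3 : ℝ, u0 ^ 2 = u1 ^ 2 + u2 ^ 2 + u3 ^ 2 →
      (a + b) * u0 ^ 2 / (a * T ^ 2 + b * S ^ 2)
        - 3 * (a * T * u0 + b * S * u1) ^ 2 / (a * T ^ 2 + b * S ^ 2) ^ 2
      = (K x - H x ^ 2) * (pf X R c P x (bs 0) * u0 + pf X R c P x (bs 1) * u1
        + pf X R c P x (bs 2) * u2 + pf X R c P x (bs 3) * u3) ^ 2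
        + (-(H x * R x * P1 x / (2 * c x))) * (kf X R x (bs 0) * u0 + kf X R x (bs 1) * u1
        + kf X R x (bs 2) * u2 + kf X R x (bs 3) * u3) ^ 2 := by
    intro u0 u1 u2 u3 hu
    have h1 := ident D hx (u := ![u0, u1, u2, u3]) (by simp [eta]; linarith)
    rw [pf_expand, kf_expand, hPhi] at h1
    have h2 : om a b x ![u0, u1, u2, u3] = a * T * u0 + b * S * u1 := by
      simp [om, x0, x1, x2, x3]
      ring
    rw [h2] at h1
    simpa using h1
  obtain ⟨r1, r2, r3⟩ := alg hb hab hT hS hF hI (k_null D hx)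
  refine ⟨r1, r2, ?_⟩
  intro e he hke
  have r4 := r3 e he hke
  have l0 := fderiv_lf (D.Phi_pos x hx) (D.h_smooth x hx) (bs 0)
  have l1 := fderiv_lf (D.Phi_pos x hx) (D.h_smooth x hx) (bs 1)
  rw [D.dh x hx, hPhi] at l0 l1
  have o0 : om a b x (bs 0) = a * T := by simp [om, bs, x0]
  have o1 : om a b x (bs 1) = b * S := by simp [om, bs, x1]
  rw [o0] at l0
  rw [o1] at l1
  rw [l0, l1]
  have hF0 := hF.ne'
  field_simp
  linear_combination (H x * (a * T ^ 2 + b * S ^ 2)) * r4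

end Pool.Agent.R962.SO
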