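import Pool.Agent.R962.SO.Core

namespace Pool.Agent.R962.SO

open scoped Topology
open Filter

variable {a b : ℝ} {W : Set E4} {X : E4 → E4} {R c P P1 h H K : E4 → ℝ}

theorem qline (D : CoreData a b W X R c P P1 h H K) {y u : E4} {s : ℝ} (hs : y + s • u ∈ W) :
    HasDerivAt (fun s : ℝ => Real.exp (-lf a b h (y + s • u)))
      (-fderiv ℝ (lf a b h) (y + s • u) u * Real.exp (-lf a b h (y + s • u))) s := by
  have h2 : ContDiffAt ℝ 2 (lf a b h) (y + s • u) := lf_smooth (D.Phi_pos _ hs) (D.h_smooth _ hs)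
  have h1 := hasDerivAt_line (u := u) (x := y) (s := s) (h2.differentiableAt (by norm_num))
  refine HasDerivAt.congr_deriv h1.neg.exp ?_
  simp only [Pi.neg_apply]
  ring

theorem qline2 (D : CoreData a b W X R c P P1 h H K) {y u : E4} {s : ℝ} (hs : y + s • u ∈ W)
    (hu : eta u u = 0) :
    HasDerivAt (fun s : ℝ => -fderiv ℝ (lf a b h) (y + s • u) u
      * Real.exp (-lf a b h (y + s • u))) 0 s := by
  have hl2 : ∀ x ∈ W, ContDiffAt ℝ 2 (lf a b h) x := fun x hx =>
    lf_smooth (D.Phi_pos x hx) (D.h_smooth x hx)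
  have hd : DifferentiableAt ℝ (fun y => fderiv ℝ (lf a b h) y u) (y + s • u) :=
      (((hl2 _ hs).fderiv_right (m := 1) (by norm_num)).clm_apply
      contDiffAt_const).differentiableAt (by norm_num)
  have h1 := hasDerivAt_line (u := u) (x := y) (s := s) hd
  rw [conf_null' D.isOpen D.X_smooth hl2 D.conf hs hu] at h1
  have h2 := qline D hs
  refine HasDerivAt.congr_deriv (h1.neg.mul h2) ?_
  simp only [Pi.neg_apply]
  ring

theorem kf_cont (D : CoreData a b W X R c P P1 h H K) {x : E4} (hx : x ∈ W) (u : E4) :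
    ContinuousAt (fun x => kf X R x u) x := by
  have h1 : ContinuousAt (fderiv ℝ X) x :=
    ((D.X_smooth x hx).fderiv_right (m := 2) (by norm_num)).continuousAt
  have h2 : ContinuousAt (fderiv ℝ R) x :=
    ((D.R_smooth x hx).fderiv_right (m := 1) (by norm_num)).continuousAt
  have h3 : ContinuousAt (fun x => fderiv ℝ X x u) x := h1.clm_apply continuousAt_const
  have h4 : ContinuousAt (fun x => fderiv ℝ R x u) x := h2.clm_apply continuousAt_const
  have h5 : ContinuousAt (fun x => fderiv ℝ X x u 0) x := (continuousAt_pi.mp h3) 0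
  exact h5.add h4

theorem pt_plus (T S s t : ℝ) : pt (T + s + t) (S + s - t) = pt (T + t) (S - t) + s • ![1, 1, 0, 0] := by
  funext i
  fin_cases i <;> simp [pt] <;> ring

theorem pt_minus (T S s t : ℝ) : pt (T + s + t) (S + s - t) = pt (T + s) (S + s) + t • ![1, -1, 0, 0] := by
  funext i
  fin_cases i <;> simp [pt]
  ring

theorem pt_bs0 (T S s : ℝ) : pt T S + s • bs 0 = pt (T + s) S := by
  funext i
  fin_cases i <;> simp [pt, bs]

theorem pt_bs1 (T S s : ℝ) : pt T S + s • bs 1 = pt T (S + s) := by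
  funext i
  fin_cases i <;> simp [pt, bs]

theorem core_false (D : CoreData a b W X R c P P1 h H K) (hb : b ≠ 0) (hab : a + b ≠ 0)
    {T0 R0 : ℝ} (hT0 : T0 ≠ 0) (hR0 : R0 ≠ 0) (hx0 : pt T0 R0 ∈ W) : False := by
  obtain ⟨k0ne, ksq, -⟩ := E1 D hb hab hT0 hR0 hx0
  obtain ⟨e, he, hke⟩ : ∃ e : ℝ, e ^ 2 = 1 ∧
      kf X R (pt T0 R0) (bs 1) = e * kf X R (pt T0 R0) (bs 0) := by
    rcases sq_eq_sq_iff_eq_or_eq_neg.mp ksq with h | h
    · exact ⟨1, by norm_num, by rw [h, one_mul]⟩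
    · exact ⟨-1, by norm_num, by rw [h]; ring⟩
  have hcont : ContinuousAt (fun x => kf X R x (bs 1) + e * kf X R x (bs 0)) (pt T0 R0) :=
    (kf_cont D hx0 _).add (continuousAt_const.mul (kf_cont D hx0 _))
  have e0 : e ≠ 0 := by rintro rfl; norm_num at he
  have hnear : ∀ᶠ x in 𝓝 (pt T0 R0), kf X R x (bs 1) + e * kf X R x (bs 0) ≠ 0 := by
    apply hcont.eventually_ne
    rw [hke]
    have : e * kf X R (pt T0 R0) (bs 0) + e * kf X R (pt T0 R0) (bs 0)
      = 2 * e * kf X R (pt T0 R0) (bs 0) := by ring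
    rw [this]
    simp [e0, k0ne]
  have hW' : ∀ᶠ x in 𝓝 (pt T0 R0), x ∈ W ∧ kf X R x (bs 1) + e * kf X R x (bs 0) ≠ 0 :=
    (show ∀ᶠ x in 𝓝 (pt T0 R0), x ∈ W from D.isOpen.mem_nhds hx0).and hnear
  have hG : Continuous (fun p : ℝ × ℝ => pt (T0 + p.1 + p.2) (R0 + p.1 - p.2)) := by
    apply continuous_pi
    intro i
    fin_cases i <;> simp [pt] <;> fun_prop
  have hG0 : (fun p : ℝ × ℝ => pt (T0 + p.1 + p.2) (R0 + p.1 - p.2)) (0, 0) = pt T0 R0 := by simp
  have hpre : ∀ᶠ p : ℝ × ℝ in 𝓝 (0, 0), pt (T0 + p.1 + p.2) (R0 + p.1 - p.2) ∈ W ∧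
      kf X R (pt (T0 + p.1 + p.2) (R0 + p.1 - p.2)) (bs 1)
        + e * kf X R (pt (T0 + p.1 + p.2) (R0 + p.1 - p.2)) (bs 0) ≠ 0 := by
    have := hG.continuousAt (x := ((0:ℝ), (0:ℝ)))
    unfold ContinuousAt at this
    rw [hG0] at this
    exact this.eventually hW'
  obtain ⟨r, hr, hball⟩ := Metric.eventually_nhds_iff.mp hpre
  have hin : ∀ s ∈ Set.Ioo (-r) r, ∀ t ∈ Set.Ioo (-r) r, pt (T0 + s + t) (R0 + s - t) ∈ W ∧
      kf X R (pt (T0 + s + t) (R0 + s - t)) (bs 1)
        + e * kf X R (pt (T0 + s + t) (R0 + s - t)) (bs 0) ≠ 0 := by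
    intro s hs t ht
    apply @hball (s, t)
    rw [Prod.dist_eq, max_lt_iff]
    simp only [Real.dist_eq, sub_zero]
    exact ⟨abs_lt.mpr hs, abs_lt.mpr ht⟩
  -- bi-affine
  obtain ⟨a0, a1, a2, a3, hF⟩ := biaff hr
    (F := fun s t => Real.exp (-lf a b h (pt (T0 + s + t) (R0 + s - t))))
    (Fs := fun s t => -fderiv ℝ (lf a b h) (pt (T0 + s + t) (R0 + s - t)) ![1, 1, 0, 0]
      * Real.exp (-lf a b h (pt (T0 + s + t) (R0 + s - t))))
    (Ft := fun s t => -fderiv ℝ (lf a b h) (pt (T0 + s + t) (R0 + s - t)) ![1, -1, 0, 0]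
      * Real.exp (-lf a b h (pt (T0 + s + t) (R0 + s - t))))
    (by
      intro s hs t ht
      have hm := (hin s hs t ht).1
      simp only [pt_plus] at hm ⊢
      exact qline D hm)
    (by
      intro s hs t ht
      have hm := (hin s hs t ht).1
      simp only [pt_plus] at hm ⊢
      exact qline2 D hm (by simp [eta]))
    (by
      intro s hs t ht
      have hm := (hin s hs t ht).1
      simp only [pt_minus] at hm ⊢
      exact qline D hm)
    (by
      intro s hs t ht
      have hm := (hin s hs t ht).1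
      simp only [pt_minus] at hm ⊢
      exact qline2 D hm (by simp [eta]))
  obtain ⟨ga, hga⟩ : ∃ ga, ga = a3 / 4 := ⟨_, rfl⟩
  obtain ⟨be, hbe⟩ : ∃ be, be = (a1 + a2) / 2 - a3 * T0 / 2 := ⟨_, rfl⟩
  obtain ⟨de, hde⟩ : ∃ de, de = (a1 - a2) / 2 + a3 * R0 / 2 := ⟨_, rfl⟩
  obtain ⟨al, hal⟩ : ∃ al, al = a0 - (a1 + a2) / 2 * T0 - (a1 - a2) / 2 * R0
    + a3 * (T0 ^ 2 - R0 ^ 2) / 4 := ⟨_, rfl⟩
  have hin2 : ∀ T ∈ Set.Ioo (T0 - r) (T0 + r), ∀ S ∈ Set.Ioo (R0 - r) (R0 + r),
      (pt T S ∈ W ∧ kf X R (pt T S) (bs 1) + e * kf X R (pt T S) (bs 0) ≠ 0) ∧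
      Real.exp (-lf a b h (pt T S)) = al + be * T + de * S + ga * (T ^ 2 - S ^ 2) := by
    intro T hT S hS
    have hs : ((T - T0) + (S - R0)) / 2 ∈ Set.Ioo (-r) r := by
      constructor <;> linarith [hT.1, hT.2, hS.1, hS.2]
    have ht : ((T - T0) - (S - R0)) / 2 ∈ Set.Ioo (-r) r := by
      constructor <;> linarith [hT.1, hT.2, hS.1, hS.2]
    have e1 : T0 + ((T - T0) + (S - R0)) / 2 + ((T - T0) - (S - R0)) / 2 = T := by ring
    have e2 : R0 + ((T - T0) + (S - R0)) / 2 - ((T - T0) - (S - R0)) / 2 = S := by ring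
    have h1 := hin _ hs _ ht
    have h2 := hF _ hs _ ht
    simp only [e1, e2] at h1 h2
    refine ⟨h1, ?_⟩
    rw [h2, hga, hbe, hde, hal]
    ring
  have hzero : al = 0 ∧ be = 0 ∧ de = 0 ∧ ga = 0 := by
    apply endgame (R0 := R0) hb hab he hT0
    filter_upwards [Ioo_mem_nhds (show T0 - r < T0 by linarith) (show T0 < T0 + r by linarith),
      isOpen_ne.mem_nhds hT0] with T hT hTne
    filter_upwards [Ioo_mem_nhds (show R0 - r < R0 by linarith) (show R0 < R0 + r by linarith),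
      isOpen_ne.mem_nhds hR0] with S hS hSne
    obtain ⟨⟨hm, hkne⟩, hq⟩ := hin2 T hT S hS
    obtain ⟨-, ksq', hE⟩ := E1 D hb hab hTne hSne hm
    have hk1 : kf X R (pt T S) (bs 1) = e * kf X R (pt T S) (bs 0) := by
      have : (kf X R (pt T S) (bs 1) + e * kf X R (pt T S) (bs 0))
        * (kf X R (pt T S) (bs 1) - e * kf X R (pt T S) (bs 0)) = 0 := by
        linear_combination ksq' - kf X R (pt T S) (bs 0) ^ 2 * he
      rcases mul_eq_zero.mp this with h | h
      · exact absurd h hkne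
      · linarith
    have hEE := hE e he hk1
    have d0 : -fderiv ℝ (lf a b h) (pt T S) (bs 0) * Real.exp (-lf a b h (pt T S))
        = be + 2 * ga * T := by
      have q1 := qline D (y := pt T S) (u := bs 0) (s := 0) (by simpa using hm)
      simp only [zero_smul, add_zero] at q1
      have q2 : HasDerivAt (fun s : ℝ => al + be * (T + s) + de * S + ga * ((T + s) ^ 2 - S ^ 2))
          (be + 2 * ga * T) 0 := by
        have i := (hasDerivAt_id (0:ℝ)).const_add T
        refine HasDerivAt.congr_deriv ((((i.const_mul be).const_add al).add_const (de * S)).add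
          (((i.pow 2).sub_const (S ^ 2)).const_mul ga)) ?_
        simp
        ring
      have q3 : (fun s : ℝ => Real.exp (-lf a b h (pt T S + s • bs 0))) =ᶠ[𝓝 0]
          (fun s : ℝ => al + be * (T + s) + de * S + ga * ((T + s) ^ 2 - S ^ 2)) := by
        have hc : ContinuousAt (fun s : ℝ => T + s) 0 := by fun_prop
        have : ∀ᶠ s in 𝓝 (0:ℝ), T + s ∈ Set.Ioo (T0 - r) (T0 + r) :=
          hc.eventually_mem (by simpa using isOpen_Ioo.mem_nhds hT)
        filter_upwards [this] with s hs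
        rw [pt_bs0]
        exact (hin2 _ hs S hS).2
      exact q1.unique (q2.congr_of_eventuallyEq q3)
    have d1 : -fderiv ℝ (lf a b h) (pt T S) (bs 1) * Real.exp (-lf a b h (pt T S))
        = de - 2 * ga * S := by
      have q1 := qline D (y := pt T S) (u := bs 1) (s := 0) (by simpa using hm)
      simp only [zero_smul, add_zero] at q1
      have q2 : HasDerivAt (fun s : ℝ => al + be * T + de * (S + s) + ga * (T ^ 2 - (S + s) ^ 2))
          (de - 2 * ga * S) 0 := by
        have i := (hasDerivAt_id (0:ℝ)).const_add S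
        refine HasDerivAt.congr_deriv (((i.const_mul de).const_add (al + be * T)).add
          (((i.pow 2).const_sub (T ^ 2)).const_mul ga)) ?_
        simp
        ring
      have q3 : (fun s : ℝ => Real.exp (-lf a b h (pt T S + s • bs 1))) =ᶠ[𝓝 0]
          (fun s : ℝ => al + be * T + de * (S + s) + ga * (T ^ 2 - (S + s) ^ 2)) := by
        have hc : ContinuousAt (fun s : ℝ => S + s) 0 := by fun_prop
        have : ∀ᶠ s in 𝓝 (0:ℝ), S + s ∈ Set.Ioo (R0 - r) (R0 + r) :=
          hc.eventually_mem (by simpa using isOpen_Ioo.mem_nhds hS)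
        filter_upwards [this] with s hs
        rw [pt_bs1]
        exact (hin2 T hT _ hs).2
      exact q1.unique (q2.congr_of_eventuallyEq q3)
    rw [← hq]
    linear_combination Real.exp (-lf a b h (pt T S)) * hEE
      - 3 * b * (a * T - e * b * S) * S * d0
      - ((a + b) * (a * T ^ 2 + b * S ^ 2) - 3 * a * (a * T - e * b * S) * T) * d1
  have h0 := (hin2 T0 ⟨by linarith, by linarith⟩ R0 ⟨by linarith, by linarith⟩).2
  rw [hzero.1, hzero.2.1, hzero.2.2.1, hzero.2.2.2] at h0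
  have := Real.exp_pos (-lf a b h (pt T0 R0))
  rw [h0] at this
  norm_num at this

end Pool.Agent.R962.SO
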