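import Mathlib

namespace Pool.Agent.R962.SO

open scoped Topology
open Filter

/-- The one-variable identity along a null line. -/
theorem onevar {X1 X2 X3 R c P H X0' X1' X2' X3' R' : ℝ → ℝ} {l1 P1 K : ℝ}
    (hX1 : ∀ᶠ s in 𝓝 (0:ℝ), HasDerivAt X1 (X1' s) s)
    (hX2 : ∀ᶠ s in 𝓝 (0:ℝ), HasDerivAt X2 (X2' s) s)
    (hX3 : ∀ᶠ s in 𝓝 (0:ℝ), HasDerivAt X3 (X3' s) s)
    (hR : ∀ᶠ s in 𝓝 (0:ℝ), HasDerivAt R (R' s) s)
    (hRR : ∀ᶠ s in 𝓝 (0:ℝ), R s ^ 2 = X1 s ^ 2 + X2 s ^ 2 + X3 s ^ 2)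
    (hR0 : ∀ᶠ s in 𝓝 (0:ℝ), R s ≠ 0) (hc0 : c 0 ≠ 0)
    (hnull : X0' 0 ^ 2 = X1' 0 ^ 2 + X2' 0 ^ 2 + X3' 0 ^ 2)
    (hX0'' : HasDerivAt X0' (2 * l1 * X0' 0) 0)
    (hX1'' : HasDerivAt X1' (2 * l1 * X1' 0) 0)
    (hX2'' : HasDerivAt X2' (2 * l1 * X2' 0) 0)
    (hX3'' : HasDerivAt X3' (2 * l1 * X3' 0) 0)
    (hc : HasDerivAt c (-(1/2) * P 0 * (X0' 0 + R' 0)) 0)
    (hP : HasDerivAt P (P1 * (X0' 0 + R' 0) / c 0) 0)
    (hH : HasDerivAt H (K * (c 0 * R' 0 - (R 0 * P 0 / 2 + c 0) * (X0' 0 + R' 0))) 0) :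
    HasDerivAt (fun s => H s * (c s * R' s - (R s * P s / 2 + c s) * (X0' s + R' s)))
      (K * (c 0 * R' 0 - (R 0 * P 0 / 2 + c 0) * (X0' 0 + R' 0)) ^ 2
        + H 0 * (2 * l1 * (c 0 * R' 0 - (R 0 * P 0 / 2 + c 0) * (X0' 0 + R' 0))
          - R 0 * P1 / (2 * c 0) * (X0' 0 + R' 0) ^ 2)) 0 := by
  have hR00 := hR0.self_of_nhds
  -- first derivative relation
  have h1 : ∀ᶠ s in 𝓝 (0:ℝ), R s * R' s = X1 s * X1' s + X2 s * X2' s + X3 s * X3' s := by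
    filter_upwards [hX1, hX2, hX3, hR, hRR.eventually_nhds] with s a1 a2 a3 a4 a5
    have d1 := a4.pow 2
    have d2 := ((a1.pow 2).add (a2.pow 2)).add (a3.pow 2)
    have d3 := d1.unique (d2.congr_of_eventuallyEq a5)
    simp at d3
    linarith
  have h2 : R' =ᶠ[𝓝 0] fun s => (X1 s * X1' s + X2 s * X2' s + X3 s * X3' s) / R s := by
    filter_upwards [h1, hR0] with s a1 a2
    rw [eq_div_iff a2, ← a1, mul_comm]
  have hX1s := hX1.self_of_nhds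
  have hX2s := hX2.self_of_nhds
  have hX3s := hX3.self_of_nhds
  have hRs := hR.self_of_nhds
  have h1s := h1.self_of_nhds
  have hRRs := hRR.self_of_nhds
  have hR'' : HasDerivAt R' ((X0' 0 ^ 2 - R' 0 ^ 2) / R 0 + 2 * l1 * R' 0) 0 := by
    refine HasDerivAt.congr_of_eventuallyEq ?_ h2
    refine HasDerivAt.congr_deriv ((((hX1s.mul hX1'').add (hX2s.mul hX2'')).add
      (hX3s.mul hX3'')).div hRs hR00) ?_
    simp only [Pi.add_apply, Pi.mul_apply]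
    rw [← h1s, hnull]
    field_simp
    have : X1' 0 * X1' 0 + X1 0 * (2 * l1 * X1' 0) + (X2' 0 * X2' 0 + X2 0 * (2 * l1 * X2' 0))
      + (X3' 0 * X3' 0 + X3 0 * (2 * l1 * X3' 0)) = X1' 0 ^ 2 + X2' 0 ^ 2 + X3' 0 ^ 2
        + 2 * l1 * (R 0 * R' 0) := by rw [h1s]; ring
    linear_combination this
  have hk := hX0''.add hR''
  have hpp := (hc.mul hR'').sub ((((hRs.mul hP).div_const 2).add hc).mul hk)
  refine HasDerivAt.congr_deriv (hH.mul hpp) ?_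
  simp only [Pi.add_apply, Pi.mul_apply, Pi.sub_apply]
  field_simp
  ring

end Pool.Agent.R962.SO
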