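import Pool.Agent.R962.SO.Conf
import Pool.Agent.R962.SO.OneVar

namespace Pool.Agent.R962.SO

open scoped Topology
open Filter

/-- The conformal factor of the Siemieniec-Oziebło metric in Cartesian coordinates. -/
def Phi (a b : ℝ) (x : E4) : ℝ := a * x 0 ^ 2 + b * (x 1 ^ 2 + x 2 ^ 2 + x 3 ^ 2)

/-- half the differential of `Phi` -/
def om (a b : ℝ) (x u : E4) : ℝ := a * x 0 * u 0 + b * (x 1 * u 1 + x 2 * u 2 + x 3 * u 3)

/-- the linear form `k = dv`, `v = X₀ + R` -/
noncomputable def kf (X : E4 → E4) (R : E4 → ℝ) (x u : E4) : ℝ := fderiv ℝ X x u 0 + fderiv ℝ R x u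

/-- the linear form `p = e^{-ψ} dt'` -/
noncomputable def pf (X : E4 → E4) (R c P : E4 → ℝ) (x u : E4) : ℝ :=
  c x * fderiv ℝ R x u - (R x * P x / 2 + c x) * kf X R x u

noncomputable def lf (a b : ℝ) (h : E4 → ℝ) (x : E4) : ℝ := 1 / 2 * Real.log (Phi a b x) - h x

structure CoreData (a b : ℝ) (W : Set E4) (X : E4 → E4) (R c P P1 h H K : E4 → ℝ) : Prop where
  isOpen : IsOpen W
  X_smooth : ∀ x ∈ W, ContDiffAt ℝ 3 X x
  R_smooth : ∀ x ∈ W, ContDiffAt ℝ 2 R x
  c_diff : ∀ x ∈ W, DifferentiableAt ℝ c x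
  P_diff : ∀ x ∈ W, DifferentiableAt ℝ P x
  h_smooth : ∀ x ∈ W, ContDiffAt ℝ 2 h x
  H_diff : ∀ x ∈ W, DifferentiableAt ℝ H x
  Phi_pos : ∀ x ∈ W, 0 < Phi a b x
  conf : ∀ x ∈ W, ∀ u w, eta (fderiv ℝ X x u) (fderiv ℝ X x w)
    = Real.exp (2 * lf a b h x) * eta u w
  RR : ∀ x ∈ W, R x ^ 2 = X x 1 ^ 2 + X x 2 ^ 2 + X x 3 ^ 2
  R_ne : ∀ x ∈ W, R x ≠ 0
  c_ne : ∀ x ∈ W, c x ≠ 0
  dc : ∀ x ∈ W, ∀ u, fderiv ℝ c x u = -(1/2) * P x * kf X R x u
  dP : ∀ x ∈ W, ∀ u, fderiv ℝ P x u = P1 x * kf X R x u / c x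
  dh : ∀ x ∈ W, ∀ u, fderiv ℝ h x u = H x * pf X R c P x u
  dH : ∀ x ∈ W, ∀ u, fderiv ℝ H x u = K x * pf X R c P x u

theorem contDiff_Phi (a b : ℝ) : ContDiff ℝ 2 (Phi a b) := by
  unfold Phi
  have h : ∀ i : Fin 4, ContDiff ℝ 2 (fun x : E4 => x i) := fun i => contDiff_apply ℝ ℝ i
  exact (contDiff_const.mul ((h 0).pow 2)).add
    (contDiff_const.mul ((((h 1).pow 2).add ((h 2).pow 2)).add ((h 3).pow 2)))

theorem fderiv_Phi (a b : ℝ) (x u : E4) : fderiv ℝ (Phi a b) x u = 2 * om a b x u := by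
  have hd : DifferentiableAt ℝ (Phi a b) x := (contDiff_Phi a b).differentiable (by norm_num) x
  have h1 := hasDerivAt_line0 (u := u) hd
  have hi : ∀ i : Fin 4, HasDerivAt (fun s : ℝ => x i + s * u i) (u i) 0 := fun i => by
    simpa using ((hasDerivAt_id (0:ℝ)).mul_const (u i)).const_add (x i)
  have h2 : HasDerivAt (fun s : ℝ => Phi a b (x + s • u)) (2 * om a b x u) 0 := by
    unfold Phi
    refine HasDerivAt.congr_deriv ((((hi 0).pow 2).const_mul a).add
      (((((hi 1).pow 2).add ((hi 2).pow 2)).add ((hi 3).pow 2)).const_mul b)) ?_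
    simp [om]
    ring
  exact h1.unique h2

theorem lf_smooth {a b : ℝ} {h : E4 → ℝ} {x : E4} (hp : 0 < Phi a b x) (hh : ContDiffAt ℝ 2 h x) :
    ContDiffAt ℝ 2 (lf a b h) x := by
  unfold lf
  exact (contDiffAt_const.mul ((contDiff_Phi a b).contDiffAt.log hp.ne')).sub hh

theorem fderiv_lf {a b : ℝ} {h : E4 → ℝ} {x : E4} (hp : 0 < Phi a b x) (hh : ContDiffAt ℝ 2 h x)
    (u : E4) : fderiv ℝ (lf a b h) x u = om a b x u / Phi a b x - fderiv ℝ h x u := by
  have hd : DifferentiableAt ℝ (Phi a b) x := (contDiff_Phi a b).differentiable (by norm_num) x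
  have h1 := ((hd.hasFDerivAt.log hp.ne').const_mul (1/2)).sub
    (hh.differentiableAt (by norm_num)).hasFDerivAt
  have h3 : fderiv ℝ (lf a b h) x u = _ := congrArg (fun T => T u) h1.fderiv
  rw [h3]
  simp only [sub_apply, smul_apply, smul_eq_mul, fderiv_Phi]
  field_simp

theorem ident {a b : ℝ} {W : Set E4} {X : E4 → E4} {R c P P1 h H K : E4 → ℝ}
    (D : CoreData a b W X R c P P1 h H K) {x : E4} (hx : x ∈ W) {u : E4} (hu : eta u u = 0) :
    (a + b) * u 0 ^ 2 / Phi a b x - 3 * om a b x u ^ 2 / Phi a b x ^ 2 =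
      (K x - H x ^ 2) * pf X R c P x u ^ 2
        + (-(H x * R x * P1 x / (2 * c x))) * kf X R x u ^ 2 := by
  have hW := D.isOpen
  have hmem := line_mem hW hx u
  have hl2 : ∀ x ∈ W, ContDiffAt ℝ 2 (lf a b h) x := fun x hx =>
    lf_smooth (D.Phi_pos x hx) (D.h_smooth x hx)
  -- second derivative of l
  have hl : HasDerivAt (fun s : ℝ => fderiv ℝ (lf a b h) (x + s • u) u)
      ((fderiv ℝ (lf a b h) x u) ^ 2) 0 := by
    have hd : DifferentiableAt ℝ (fun y => fderiv ℝ (lf a b h) y u) x :=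
      (((hl2 x hx).fderiv_right (m := 1) (by norm_num)).clm_apply
      contDiffAt_const).differentiableAt (by norm_num)
    have := hasDerivAt_line0 (u := u) hd
    rwa [conf_null' hW D.X_smooth hl2 D.conf hx hu] at this
  -- second derivative of φ
  have hi : ∀ i : Fin 4, HasDerivAt (fun s : ℝ => x i + s * u i) (u i) 0 := fun i => by
    simpa using ((hasDerivAt_id (0:ℝ)).mul_const (u i)).const_add (x i)
  have hPd : HasDerivAt (fun s : ℝ => Phi a b (x + s • u)) (2 * om a b x u) 0 := by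
    rw [← fderiv_Phi]
    exact hasDerivAt_line0 ((contDiff_Phi a b).differentiable (by norm_num) x)
  have hP0 := D.Phi_pos x hx
  have hod : HasDerivAt (fun s : ℝ => om a b (x + s • u) u)
      (a * u 0 ^ 2 + b * (u 1 ^ 2 + u 2 ^ 2 + u 3 ^ 2)) 0 := by
    unfold om
    refine HasDerivAt.congr_deriv ((((hi 0).const_mul a).mul_const (u 0)).add
      (((((hi 1).mul_const (u 1)).add ((hi 2).mul_const (u 2))).add
        ((hi 3).mul_const (u 3))).const_mul b)) ?_
    ring
  have hphi : HasDerivAt (fun s : ℝ => om a b (x + s • u) u / Phi a b (x + s • u))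
      ((a + b) * u 0 ^ 2 / Phi a b x - 2 * om a b x u ^ 2 / Phi a b x ^ 2) 0 := by
    refine HasDerivAt.congr_deriv (hod.div hPd (by simpa using hP0.ne')) ?_
    simp only [zero_smul, add_zero]
    have : u 1 ^ 2 + u 2 ^ 2 + u 3 ^ 2 = u 0 ^ 2 := by unfold eta at hu; linarith
    rw [this]
    field_simp
  -- second derivative of h
  have hXG : DifferentiableAt ℝ (fderiv ℝ X) x :=
    ((D.X_smooth x hx).fderiv_right (m := 2) (by norm_num)).differentiableAt (by norm_num)
  have hXu : HasDerivAt (fun s : ℝ => fderiv ℝ X (x + s • u) u)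
      ((2 * fderiv ℝ (lf a b h) x u) • fderiv ℝ X x u) 0 := by
    have := (hasDerivAt_line0 (u := u) hXG).clm_apply (hasDerivAt_const (0:ℝ) u)
    simp only [map_zero, add_zero] at this
    rw [koszul hW D.X_smooth hl2 D.conf hx hu, ← add_smul, ← two_mul] at this
    exact this
  have hXui : ∀ i : Fin 4, HasDerivAt (fun s : ℝ => fderiv ℝ X (x + s • u) u i)
      (2 * fderiv ℝ (lf a b h) x u * fderiv ℝ X (x + (0:ℝ) • u) u i) 0 := fun i => by
    simpa using (hasDerivAt_pi.mp hXu) i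
  have hXi : ∀ i : Fin 4, ∀ᶠ s in 𝓝 (0:ℝ), HasDerivAt (fun s : ℝ => X (x + s • u) i)
      (fderiv ℝ X (x + s • u) u i) s := fun i => by
    filter_upwards [hmem] with s hs
    exact (hasDerivAt_pi.mp (hasDerivAt_line
      ((D.X_smooth _ hs).differentiableAt (by norm_num)))) i
  have hRi : ∀ᶠ s in 𝓝 (0:ℝ), HasDerivAt (fun s : ℝ => R (x + s • u))
      (fderiv ℝ R (x + s • u) u) s := by
    filter_upwards [hmem] with s hs
    exact hasDerivAt_line ((D.R_smooth _ hs).differentiableAt (by norm_num))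
  have hnull : fderiv ℝ X (x + (0:ℝ) • u) u 0 ^ 2 = fderiv ℝ X (x + (0:ℝ) • u) u 1 ^ 2
      + fderiv ℝ X (x + (0:ℝ) • u) u 2 ^ 2 + fderiv ℝ X (x + (0:ℝ) • u) u 3 ^ 2 := by
    have := D.conf x hx u u
    rw [hu, mul_zero] at this
    unfold eta at this
    simp only [zero_smul, add_zero]
    linarith
  have e0 : x + (0:ℝ) • u = x := by simp
  have hone := onevar (X1 := fun s => X (x + s • u) 1) (X2 := fun s => X (x + s • u) 2)
    (X3 := fun s => X (x + s • u) 3) (R := fun s => R (x + s • u)) (c := fun s => c (x + s • u))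
    (P := fun s => P (x + s • u)) (H := fun s => H (x + s • u))
    (X0' := fun s => fderiv ℝ X (x + s • u) u 0) (X1' := fun s => fderiv ℝ X (x + s • u) u 1)
    (X2' := fun s => fderiv ℝ X (x + s • u) u 2) (X3' := fun s => fderiv ℝ X (x + s • u) u 3)
    (R' := fun s => fderiv ℝ R (x + s • u) u) (l1 := fderiv ℝ (lf a b h) x u) (P1 := P1 x)
    (K := K x)
    (hXi 1) (hXi 2) (hXi 3) hRi
    (by filter_upwards [hmem] with s hs using D.RR _ hs)
    (by filter_upwards [hmem] with s hs using D.R_ne _ hs)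
    (by simpa using D.c_ne x hx) hnull (hXui 0) (hXui 1) (hXui 2) (hXui 3)
    (by
      have := hasDerivAt_line0 (u := u) (D.c_diff x hx)
      rw [D.dc x hx] at this
      simpa [kf] using this)
    (by
      have := hasDerivAt_line0 (u := u) (D.P_diff x hx)
      rw [D.dP x hx] at this
      simpa [kf] using this)
    (by
      have := hasDerivAt_line0 (u := u) (D.H_diff x hx)
      rw [D.dH x hx] at this
      simpa [kf, pf] using this)
  have hh : HasDerivAt (fun s : ℝ => fderiv ℝ h (x + s • u) u)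
      (K x * pf X R c P x u ^ 2 + H x * (2 * fderiv ℝ (lf a b h) x u * pf X R c P x u
        - R x * P1 x / (2 * c x) * kf X R x u ^ 2)) 0 := by
    have h1 : (fun s : ℝ => fderiv ℝ h (x + s • u) u) =ᶠ[𝓝 0]
        (fun s : ℝ => H (x + s • u) * pf X R c P (x + s • u) u) := by
      filter_upwards [hmem] with s hs using D.dh _ hs u
    refine HasDerivAt.congr_of_eventuallyEq ?_ h1
    simpa [pf, kf] using hone
  have hsum : HasDerivAt (fun s : ℝ => fderiv ℝ (lf a b h) (x + s • u) u)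
      (((a + b) * u 0 ^ 2 / Phi a b x - 2 * om a b x u ^ 2 / Phi a b x ^ 2)
        - (K x * pf X R c P x u ^ 2 + H x * (2 * fderiv ℝ (lf a b h) x u * pf X R c P x u
        - R x * P1 x / (2 * c x) * kf X R x u ^ 2))) 0 := by
    refine HasDerivAt.congr_of_eventuallyEq (hphi.sub hh) ?_
    filter_upwards [hmem] with s hs
    exact fderiv_lf (D.Phi_pos _ hs) (D.h_smooth _ hs) u
  have key := hl.unique hsum
  have hl1 := fderiv_lf (D.Phi_pos x hx) (D.h_smooth x hx) u
  rw [D.dh x hx] at hl1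
  rw [hl1] at key
  have hc0 := D.c_ne x hx
  have hP0' := hP0.ne'
  field_simp at key ⊢
  linear_combination -key
end Pool.Agent.R962.SO
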